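import Pool.Agent.Lib.OSI36.Signs

/-!
# Constant failure probability is not enough

The sketch is `0` with probability `δ / 2`, and otherwise a fixed number `k` of columns of random
signs, rescaled.  It is an oblivious subspace injection with injectivity `1`, but for the matrix
`diag(√D, …, √D, 1, …, 1)` with `D → ∞` its error is a factor `1 + 1 / (32 k)` above the optimum.
-/

namespace Pool.Agent.Results.MP_082b65_an.ConstantFailureCounterexample

open Matrix MeasureTheory Pool.Agent.Lib.OSI36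

variable {n d k r D : ℕ}

/-! ### The projection `M M⁺` -/

lemma proj_transpose (M : Matrix (Fin n) (Fin k) ℝ) : (M * pinv M)ᵀ = M * pinv M :=
  (pinv_spec M).symm_left

lemma proj_mul (M : Matrix (Fin n) (Fin k) ℝ) : (M * pinv M) * (M * pinv M) = M * pinv M := by
  rw [← Matrix.mul_assoc, (pinv_spec M).mul_mul]

lemma symm_idem_diag {m : ℕ} {P : Matrix (Fin m) (Fin m) ℝ} (h1 : Pᵀ = P) (h2 : P * P = P)
    (j : Fin m) : P j j = ∑ i, P i j ^ 2 := by
  have h := congrFun (congrFun h2 j) j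
  rw [Matrix.mul_apply] at h
  rw [← h]
  refine Finset.sum_congr rfl fun i _ => ?_
  have : P j i = P i j := by
    have := congrFun (congrFun h1 i) j
    simpa using this
  rw [this, pow_two]

lemma symm_idem_diag_le_one {m : ℕ} {P : Matrix (Fin m) (Fin m) ℝ} (h1 : Pᵀ = P)
    (h2 : P * P = P) (j : Fin m) : P j j ≤ 1 := by
  have h := symm_idem_diag h1 h2 j
  have h3 : P j j ^ 2 ≤ ∑ i, P i j ^ 2 :=
    Finset.single_le_sum (f := fun i => P i j ^ 2) (fun i _ => sq_nonneg _) (Finset.mem_univ j)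
  rw [← h] at h3
  nlinarith

lemma trace_proj_le (M : Matrix (Fin n) (Fin k) ℝ) : trace (M * pinv M) ≤ k := by
  rw [Matrix.trace_mul_comm]
  have h1 : (pinv M * M)ᵀ = pinv M * M := (pinv_spec M).symm_right
  have h2 : (pinv M * M) * (pinv M * M) = pinv M * M := by
    rw [← Matrix.mul_assoc, (pinv_spec M).mul_mul']
  calc trace (pinv M * M) = ∑ j, (pinv M * M) j j := rfl
    _ ≤ ∑ _j : Fin k, (1 : ℝ) := Finset.sum_le_sum fun j _ => symm_idem_diag_le_one h1 h2 j
    _ = k := by simp

/-! ### The test matrix -/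

/-- The matrix `diag(a, …, a, b, …, b)` with `r` entries `a` and `D` entries `b`. -/
noncomputable def dg (r D : ℕ) (a b : ℝ) : Matrix (Fin (r + D)) (Fin (r + D)) ℝ :=
  diagonal (fun i => if i.val < r then a else b)

lemma rank_dg_le (a : ℝ) : (dg r D a 0).rank ≤ r := by
  unfold dg
  rw [Matrix.rank_diagonal]
  calc Fintype.card {i : Fin (r + D) // (if i.val < r then a else 0) ≠ 0}
      ≤ Fintype.card {i : Fin (r + D) // i.val < r} := by
        apply Fintype.card_subtype_mono
        intro i hi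
        by_contra hc
        exact hi (if_neg hc)
    _ = r := by
        rw [Fintype.card_subtype]
        have : (Finset.univ.filter (fun i : Fin (r + D) => i.val < r)) =
            Finset.univ.map (Fin.castAddEmb D : Fin r ↪ Fin (r + D)) := by
          ext i
          simp only [Finset.mem_filter, Finset.mem_univ, true_and, Finset.mem_map]
          constructor
          · intro h
            exact ⟨⟨i.val, h⟩, by ext; simp⟩
          · rintro ⟨j, rfl⟩
            simp
        rw [this, Finset.card_map]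
        simp

lemma frobSq_diagonal (w : Fin n → ℝ) : frobSq (diagonal w) = ∑ i, w i ^ 2 := by
  unfold frobSq
  refine Finset.sum_congr rfl fun i _ => ?_
  rw [Finset.sum_eq_single i]
  · simp
  · intro j _ hj
    simp [Matrix.diagonal_apply_ne _ hj.symm]
  · simp

lemma sum_dg (a b : ℝ) : ∑ i : Fin (r + D), (if i.val < r then a else b) = r * a + D * b := by
  rw [Fin.sum_univ_add]
  simp

lemma frobSq_dg (a b : ℝ) : frobSq (dg r D a b) = r * a ^ 2 + D * b ^ 2 := by
  unfold dg
  rw [frobSq_diagonal, ← sum_dg (r := r) (D := D) (a ^ 2) (b ^ 2)]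
  refine Finset.sum_congr rfl fun i _ => ?_
  split_ifs <;> rfl

lemma dg_sub (a b c e : ℝ) : dg r D a b - dg r D c e = dg r D (a - c) (b - e) := by
  unfold dg
  rw [Matrix.diagonal_sub]
  congr 1
  funext i
  split_ifs <;> rfl

/-! ### The sign sketch -/

/-- The `d × k` matrix of signs, times `c`. -/
def signMat (d k : ℕ) (c : ℝ) (τ : Fin k × Fin d → Bool) : Matrix (Fin d) (Fin k) ℝ :=
  Matrix.of fun i j => c * sg (τ (j, i))

/-- Off-diagonal part of the Gram matrix of the tail rows. -/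
noncomputable def gramOff (r D k : ℕ) (τ : Fin k × Fin (r + D) → Bool) : ℝ :=
  ∑ x : Fin k × Fin k, if x.1 = x.2 then 0 else
    (∑ i : Fin D, sg (τ (x.1, Fin.natAdd r i)) * sg (τ (x.2, Fin.natAdd r i))) ^ 2

/-- Lower bound for the quadratic form of the tail Gram matrix. -/
lemma gram_lower (τ : Fin k × Fin (r + D) → Bool) (u : Fin k → ℝ)
    (h : gramOff r D k τ ≤ ((D : ℝ) / 2) ^ 2) :
    (D : ℝ) / 2 * normSq u ≤
      ∑ i : Fin D, (∑ j, sg (τ (j, Fin.natAdd r i)) * u j) ^ 2 := by
  set G : Fin k × Fin k → ℝ := fun x =>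
    ∑ i : Fin D, sg (τ (x.1, Fin.natAdd r i)) * sg (τ (x.2, Fin.natAdd r i)) with hG
  have h1 : ∑ i : Fin D, (∑ j, sg (τ (j, Fin.natAdd r i)) * u j) ^ 2 =
      ∑ x : Fin k × Fin k, G x * (u x.1 * u x.2) := by
    simp_rw [pow_two, Finset.sum_mul_sum, hG, Finset.sum_mul]
    rw [Finset.sum_comm (s := (Finset.univ : Finset (Fin k × Fin k)))]
    refine Finset.sum_congr rfl fun i _ => ?_
    rw [Fintype.sum_prod_type]
    refine Finset.sum_congr rfl fun a _ => Finset.sum_congr rfl fun b _ => ?_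
    ring
  have hdiag : ∀ a, G (a, a) = D := by
    intro a
    simp [hG]
  have h2 : ∑ x : Fin k × Fin k, G x * (u x.1 * u x.2) =
      D * normSq u + ∑ x : Fin k × Fin k, (if x.1 = x.2 then 0 else G x) * (u x.1 * u x.2) := by
    have e : ∀ x : Fin k × Fin k, G x * (u x.1 * u x.2) =
        (if x.1 = x.2 then (D : ℝ) * (u x.1 * u x.2) else 0) +
          (if x.1 = x.2 then 0 else G x) * (u x.1 * u x.2) := by
      intro x
      by_cases hx : x.1 = x.2
      · have : x = (x.1, x.1) := by ext <;> simp [hx]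
        have hGx : G x = D := by rw [this]; exact hdiag _
        rw [if_pos hx, if_pos hx, hGx]; ring
      · rw [if_neg hx, if_neg hx]; ring
    rw [Finset.sum_congr rfl fun x _ => e x, Finset.sum_add_distrib]
    congr 1
    rw [Fintype.sum_prod_type]
    simp only [normSq, Finset.mul_sum]
    refine Finset.sum_congr rfl fun a _ => ?_
    rw [Finset.sum_ite_eq]
    simp [pow_two]
  have h3 : |∑ x : Fin k × Fin k, (if x.1 = x.2 then 0 else G x) * (u x.1 * u x.2)| ≤
      (D : ℝ) / 2 * normSq u := by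
    have hcs := Finset.sum_mul_sq_le_sq_mul_sq Finset.univ
      (fun x : Fin k × Fin k => if x.1 = x.2 then 0 else G x) (fun x => u x.1 * u x.2)
    have e1 : ∑ x : Fin k × Fin k, (if x.1 = x.2 then 0 else G x) ^ 2 = gramOff r D k τ := by
      unfold gramOff
      refine Finset.sum_congr rfl fun x _ => ?_
      split_ifs <;> simp [hG]
    have e2 : ∑ x : Fin k × Fin k, (u x.1 * u x.2) ^ 2 = normSq u ^ 2 := by
      rw [normSq, pow_two, Finset.sum_mul_sum, Fintype.sum_prod_type]
      refine Finset.sum_congr rfl fun a _ => Finset.sum_congr rfl fun b _ => ?_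
      ring
    rw [e1, e2] at hcs
    have hn := normSq_nonneg u
    have h4 : (∑ x : Fin k × Fin k, (if x.1 = x.2 then 0 else G x) * (u x.1 * u x.2)) ^ 2 ≤
        ((D : ℝ) / 2 * normSq u) ^ 2 := by
      refine hcs.trans ?_
      rw [mul_pow]
      exact mul_le_mul_of_nonneg_right h (by positivity)
    exact abs_le_of_sq_le_sq h4 (by positivity)
  rw [h1, h2]
  have := (abs_le.mp h3).1
  linarith

/-- Lower bound for the error of the randomized SVD of `diag(√D, …, √D, 1, …, 1)`. -/
lemma error_lower {r : ℕ} (hk : 1 ≤ k) (hD : 1 ≤ D) (τ : Fin k × Fin (r + 1 + D) → Bool)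
    (c : ℝ) (h : gramOff (r + 1) D k τ ≤ ((D : ℝ) / 2) ^ 2) :
    (D : ℝ) - k + D / (4 * k) ≤ frobSq (dg (r + 1) D (Real.sqrt D) 1 -
      rsvd (dg (r + 1) D (Real.sqrt D) 1) (signMat (r + 1 + D) k c τ)) := by
  set A := dg (r + 1) D (Real.sqrt D) 1 with hA
  set W := signMat (r + 1 + D) k c τ with hW
  set M := A * W with hM
  set P := M * pinv M with hP
  have hPt : Pᵀ = P := proj_transpose M
  have hPP : P * P = P := proj_mul M
  have hR : A - rsvd A W = (1 - P) * A := by
    unfold rsvd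
    rw [Matrix.sub_mul, Matrix.one_mul]
  have hCt : (1 - P)ᵀ = 1 - P := by rw [transpose_sub, hPt, transpose_one]
  have hCC : (1 - P) * (1 - P) = 1 - P := by
    rw [Matrix.sub_mul, Matrix.mul_sub, Matrix.mul_sub, hPP]
    simp
  -- columns of the residual
  have hcol : ∀ i j, ((1 - P) * A) i j = (1 - P) i j * (if j.val < r + 1 then Real.sqrt D else 1) := by
    intro i j
    rw [hA, dg, Matrix.mul_diagonal]
  have hsplit : frobSq (A - rsvd A W) = ∑ j : Fin (r + 1 + D), ∑ i, ((1 - P) * A) i j ^ 2 := by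
    rw [hR]
    unfold frobSq
    rw [Finset.sum_comm]
  rw [hsplit, Fin.sum_univ_add]
  -- tail columns
  have htail : (D : ℝ) - k ≤
      ∑ j : Fin D, ∑ i, ((1 - P) * A) i (Fin.natAdd (r + 1) j) ^ 2 := by
    have e : ∀ j : Fin D, ∑ i, ((1 - P) * A) i (Fin.natAdd (r + 1) j) ^ 2 =
        1 - P (Fin.natAdd (r + 1) j) (Fin.natAdd (r + 1) j) := by
      intro j
      have h1 := symm_idem_diag hCt hCC (Fin.natAdd (r + 1) j)
      rw [Matrix.sub_apply, Matrix.one_apply_eq] at h1
      rw [h1]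
      refine Finset.sum_congr rfl fun i _ => ?_
      have hn : ¬ (Fin.natAdd (r + 1) j).val < r + 1 := by
        rw [Fin.val_natAdd]; omega
      rw [hcol, if_neg hn, mul_one]
    simp_rw [e]
    rw [Finset.sum_sub_distrib]
    have h2 : ∑ j : Fin D, P (Fin.natAdd (r + 1) j) (Fin.natAdd (r + 1) j) ≤ k := by
      calc ∑ j : Fin D, P (Fin.natAdd (r + 1) j) (Fin.natAdd (r + 1) j)
          ≤ ∑ j : Fin (r + 1), P (Fin.castAdd D j) (Fin.castAdd D j) +
            ∑ j : Fin D, P (Fin.natAdd (r + 1) j) (Fin.natAdd (r + 1) j) := by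
              have : 0 ≤ ∑ j : Fin (r + 1), P (Fin.castAdd D j) (Fin.castAdd D j) := by
                apply Finset.sum_nonneg
                intro j _
                rw [symm_idem_diag hPt hPP]
                exact Finset.sum_nonneg fun i _ => sq_nonneg _
              linarith
        _ = trace P := (Fin.sum_univ_add (fun i => P i i)).symm
        _ ≤ k := trace_proj_le M
    simp only [Finset.sum_const, Finset.card_univ, Fintype.card_fin, nsmul_eq_mul, mul_one]
    linarith
  -- the first column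
  have hhead : (D : ℝ) / (4 * k) ≤
      ∑ j : Fin (r + 1), ∑ i, ((1 - P) * A) i (Fin.castAdd D j) ^ 2 := by
    have hsingle : ∑ i, ((1 - P) * A) i (Fin.castAdd D 0) ^ 2 ≤
        ∑ j : Fin (r + 1), ∑ i, ((1 - P) * A) i (Fin.castAdd D j) ^ 2 :=
      Finset.single_le_sum (f := fun j : Fin (r + 1) =>
        ∑ i, ((1 - P) * A) i (Fin.castAdd D j) ^ 2)
        (fun j _ => Finset.sum_nonneg fun i _ => sq_nonneg _) (Finset.mem_univ 0)
    refine le_trans ?_ hsingle
    set z : Fin (r + 1 + D) := Fin.castAdd D 0 with hz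
    have hz0 : z.val < r + 1 := by simp [hz]
    -- `(1 - P) A = A - M Y`
    set y : Fin k → ℝ := fun j => (pinv M * A) j z with hy
    set u : Fin k → ℝ := fun j => c * y j with hu
    have hent : ∀ i, ((1 - P) * A) i z = A i z -
        (if i.val < r + 1 then Real.sqrt D else 1) * ∑ j, sg (τ (j, i)) * u j := by
      intro i
      have e1 : (1 - P) * A = A - M * (pinv M * A) := by
        rw [Matrix.sub_mul, Matrix.one_mul, ← Matrix.mul_assoc]
      rw [e1, Matrix.sub_apply]
      congr 1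
      rw [Matrix.mul_apply, Finset.mul_sum]
      refine Finset.sum_congr rfl fun j _ => ?_
      have e2 : M i j = (if i.val < r + 1 then Real.sqrt D else 1) * (c * sg (τ (j, i))) := by
        rw [hM, hA, dg, Matrix.diagonal_mul, hW]
        rfl
      rw [e2, hu]
      simp only [hy]
      ring
    rw [Fin.sum_univ_add]
    have h1 : ((D : ℝ) * (1 - ∑ j, sg (τ (j, z)) * u j) ^ 2) ≤
        ∑ i : Fin (r + 1), ((1 - P) * A) (Fin.castAdd D i) z ^ 2 := by
      have h2 : ((1 - P) * A) z z ^ 2 ≤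
          ∑ i : Fin (r + 1), ((1 - P) * A) (Fin.castAdd D i) z ^ 2 :=
        Finset.single_le_sum (f := fun i : Fin (r + 1) => ((1 - P) * A) (Fin.castAdd D i) z ^ 2)
          (fun i _ => sq_nonneg _) (Finset.mem_univ 0)
      refine le_trans (le_of_eq ?_) h2
      rw [hent z, if_pos hz0]
      have e3 : A z z = Real.sqrt D := by
        rw [hA, dg, Matrix.diagonal_apply_eq, if_pos hz0]
      rw [e3]
      have hs : Real.sqrt (D : ℝ) ^ 2 = D := Real.sq_sqrt (by positivity)
      calc (D : ℝ) * (1 - ∑ j, sg (τ (j, z)) * u j) ^ 2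
          = Real.sqrt (D : ℝ) ^ 2 * (1 - ∑ j, sg (τ (j, z)) * u j) ^ 2 := by rw [hs]
        _ = _ := by ring
    have h3 : ∑ i : Fin D, ((1 - P) * A) (Fin.natAdd (r + 1) i) z ^ 2 =
        ∑ i : Fin D, (∑ j, sg (τ (j, Fin.natAdd (r + 1) i)) * u j) ^ 2 := by
      refine Finset.sum_congr rfl fun i _ => ?_
      rw [hent]
      have hne : (Fin.natAdd (r + 1) i : Fin (r + 1 + D)) ≠ z := by
        intro hc
        have := congrArg Fin.val hc
        simp [hz] at this
      have e4 : A (Fin.natAdd (r + 1) i) z = 0 := by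
        rw [hA, dg, Matrix.diagonal_apply_ne _ hne]
      have hn : ¬ (Fin.natAdd (r + 1) i).val < r + 1 := by
        rw [Fin.val_natAdd]; omega
      rw [e4, if_neg hn]
      ring
    rw [h3]
    have h4 := gram_lower τ u h
    set a : ℝ := ∑ j, sg (τ (j, z)) * u j with ha
    have hcs : a ^ 2 ≤ k * normSq u := by
      have := Finset.sum_mul_sq_le_sq_mul_sq Finset.univ (fun j => sg (τ (j, z))) u
      have e5 : ∑ j : Fin k, sg (τ (j, z)) ^ 2 = k := by
        simp [pow_two]
      rw [e5] at this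
      exact this
    have hk0 : (1 : ℝ) ≤ k := by exact_mod_cast hk
    have hD0 : (1 : ℝ) ≤ D := by exact_mod_cast hD
    have h5 : (D : ℝ) / (2 * k) * a ^ 2 ≤ (D : ℝ) / 2 * normSq u := by
      have : (D : ℝ) / (2 * k) * a ^ 2 ≤ (D : ℝ) / (2 * k) * (k * normSq u) :=
        mul_le_mul_of_nonneg_left hcs (by positivity)
      have e6 : (D : ℝ) / (2 * k) * (k * normSq u) = (D : ℝ) / 2 * normSq u := by
        field_simp
      linarith
    have h6 : (D : ℝ) / (2 * k) * (1 - a) ^ 2 ≤ D * (1 - a) ^ 2 := by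
      apply mul_le_mul_of_nonneg_right _ (sq_nonneg _)
      rw [div_le_iff₀ (by positivity)]
      nlinarith
    have h7 : (D : ℝ) / (4 * k) ≤ (D : ℝ) / (2 * k) * (1 - a) ^ 2 + (D : ℝ) / (2 * k) * a ^ 2 := by
      have e7 : (D : ℝ) / (4 * k) = (D : ℝ) / (2 * k) * (1 / 2) := by field_simp; norm_num
      rw [e7, ← mul_add]
      apply mul_le_mul_of_nonneg_left _ (by positivity)
      nlinarith [sq_nonneg (a - 1 / 2)]
    linarith
  linarith

/-! ### Finite probability spaces -/

section Finite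

variable {Θ : Type} [Fintype Θ] [MeasurableSpace Θ] [DiscreteMeasurableSpace Θ]

/-- The measure with weights `w`. -/
noncomputable def wMeas (w : Θ → ℝ) : Measure Θ :=
  ∑ θ, ENNReal.ofReal (w θ) • Measure.dirac θ

lemma wMeas_integral {w : Θ → ℝ} (hw : ∀ θ, 0 ≤ w θ) (f : Θ → ℝ) :
    ∫ θ, f θ ∂(wMeas w) = ∑ θ, w θ * f θ := by
  unfold wMeas
  rw [integral_finsetSum_measure]
  · refine Finset.sum_congr rfl fun θ _ => ?_
    rw [integral_smul_measure, integral_dirac, ENNReal.toReal_ofReal (hw θ), smul_eq_mul]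
  · intro θ _
    refine Integrable.smul_measure ?_ ENNReal.ofReal_ne_top
    exact integrable_dirac (by simp [enorm])

omit [DiscreteMeasurableSpace Θ] in
lemma wMeas_prob {w : Θ → ℝ} (hw : ∀ θ, 0 ≤ w θ) (h1 : ∑ θ, w θ = 1) :
    IsProbabilityMeasure (wMeas w) := by
  constructor
  unfold wMeas
  simp only [Measure.coe_finsetSum, Finset.sum_apply, Measure.smul_apply, smul_eq_mul,
    measure_univ, mul_one]
  rw [← ENNReal.ofReal_sum_of_nonneg fun θ _ => hw θ, h1, ENNReal.ofReal_one]

lemma wMeas_real {w : Θ → ℝ} (hw : ∀ θ, 0 ≤ w θ) (E : Set Θ) :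
    (wMeas w).real E = ∑ θ, w θ * E.indicator 1 θ := by
  rw [← wMeas_integral hw, integral_indicator_one (MeasurableSet.of_discrete)]

end Finite

/-! ### Moments of the sign sketch -/

lemma sketch_eq (c : ℝ) (τ : Fin k × Fin d → Bool) (x : Fin d → ℝ) :
    normSq ((signMat d k c τ)ᵀ *ᵥ x) = c ^ 2 * ∑ j : Fin k, (∑ i, x i * sg (τ (j, i))) ^ 2 := by
  unfold normSq
  rw [Finset.mul_sum]
  refine Finset.sum_congr rfl fun j _ => ?_
  rw [← mul_pow, Finset.mul_sum]
  congr 1
  simp only [mulVec, dotProduct, transpose_apply, signMat, Matrix.of_apply]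
  refine Finset.sum_congr rfl fun i _ => ?_
  ring

lemma sum_sketch_row (x : Fin d → ℝ) (j : Fin k) :
    ∑ τ : Fin k × Fin d → Bool, (∑ i, x i * sg (τ (j, i))) ^ 2 =
      cnt (Fin k × Fin d) * normSq x := by
  have h := sum_linear_sq (ι := Fin k × Fin d) (fun p => if p.1 = j then x p.2 else 0)
  have e1 : ∀ τ : Fin k × Fin d → Bool,
      ∑ p : Fin k × Fin d, (if p.1 = j then x p.2 else 0) * sg (τ p) =
        ∑ i, x i * sg (τ (j, i)) := by
    intro τ
    rw [Fintype.sum_prod_type]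
    rw [Finset.sum_eq_single j]
    · simp
    · intro b _ hb
      simp [hb]
    · simp
  have e2 : ∑ p : Fin k × Fin d, (if p.1 = j then x p.2 else 0) ^ 2 = normSq x := by
    rw [Fintype.sum_prod_type]
    rw [Finset.sum_eq_single j]
    · simp [normSq]
    · intro b _ hb
      simp [hb]
    · simp
  simp_rw [e1, e2] at h
  exact h

lemma sum_sketch (c : ℝ) (x : Fin d → ℝ) :
    ∑ τ : Fin k × Fin d → Bool, normSq ((signMat d k c τ)ᵀ *ᵥ x) =
      cnt (Fin k × Fin d) * (c ^ 2 * k * normSq x) := by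
  simp_rw [sketch_eq]
  rw [← Finset.mul_sum, Finset.sum_comm]
  simp_rw [sum_sketch_row]
  rw [Finset.sum_const, Finset.card_univ, Fintype.card_fin, nsmul_eq_mul]
  ring

/-- Coefficients of the off-diagonal quadratic form attached to two columns of the frame. -/
noncomputable def coef (k : ℕ) (Q : Matrix (Fin d) (Fin r) ℝ) (a b : Fin r)
    (x : (Fin k × Fin d) × (Fin k × Fin d)) : ℝ :=
  if x.1.1 = x.2.1 ∧ x.1.2 ≠ x.2.2 then Q x.1.2 a * Q x.2.2 b else 0

/-- The off-diagonal quadratic forms. -/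
noncomputable def chaos (Q : Matrix (Fin d) (Fin r) ℝ) (τ : Fin k × Fin d → Bool)
    (a b : Fin r) : ℝ :=
  ∑ x, coef k Q a b x * (sg (τ x.1) * sg (τ x.2))

lemma coef_sq_le {Q : Matrix (Fin d) (Fin r) ℝ} (hQ : Qᵀ * Q = 1) (a b : Fin r) :
    ∑ x, coef k Q a b x ^ 2 ≤ k := by
  have hcol : ∀ a, ∑ i, Q i a ^ 2 = 1 := by
    intro a
    have := congrFun (congrFun hQ a) a
    rw [Matrix.mul_apply, Matrix.one_apply_eq] at this
    rw [← this]
    refine Finset.sum_congr rfl fun i _ => ?_
    rw [Matrix.transpose_apply, pow_two]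
  calc ∑ x, coef k Q a b x ^ 2
      ≤ ∑ x : (Fin k × Fin d) × (Fin k × Fin d),
        (if x.1.1 = x.2.1 then Q x.1.2 a ^ 2 * Q x.2.2 b ^ 2 else 0) := by
        refine Finset.sum_le_sum fun x _ => ?_
        unfold coef
        by_cases h1 : x.1.1 = x.2.1
        · by_cases h2 : x.1.2 ≠ x.2.2
          · rw [if_pos ⟨h1, h2⟩, if_pos h1, mul_pow]
          · rw [if_neg (fun h => h2 h.2), if_pos h1, zero_pow (by norm_num)]
            positivity
        · rw [if_neg (fun h => h1 h.1), if_neg h1]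
          simp
    _ = ∑ j : Fin k, ∑ i : Fin d, ∑ j' : Fin k, ∑ i' : Fin d,
        (if j = j' then Q i a ^ 2 * Q i' b ^ 2 else 0) := by
        rw [Fintype.sum_prod_type]
        simp_rw [Fintype.sum_prod_type]
    _ = ∑ j : Fin k, ∑ i : Fin d, ∑ i' : Fin d, Q i a ^ 2 * Q i' b ^ 2 := by
        refine Finset.sum_congr rfl fun j _ => Finset.sum_congr rfl fun i _ => ?_
        rw [Finset.sum_eq_single j]
        · simp
        · intro j' _ hj'
          simp [hj'.symm]
        · simp
    _ = k := by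
        simp_rw [← Finset.mul_sum, hcol]
        simp [hcol]

lemma sum_chaos_le {Q : Matrix (Fin d) (Fin r) ℝ} (hQ : Qᵀ * Q = 1) :
    ∑ τ : Fin k × Fin d → Bool, ∑ x : Fin r × Fin r, chaos Q τ x.1 x.2 ^ 2 ≤
      cnt (Fin k × Fin d) * (2 * r ^ 2 * k) := by
  rw [Finset.sum_comm]
  calc ∑ x : Fin r × Fin r, ∑ τ : Fin k × Fin d → Bool, chaos Q τ x.1 x.2 ^ 2
      ≤ ∑ _x : Fin r × Fin r, cnt (Fin k × Fin d) * (2 * k) := by
        refine Finset.sum_le_sum fun x _ => ?_
        refine (sum_chaos_sq_le (coef k Q x.1 x.2) ?_).trans ?_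
        · intro p
          unfold coef
          simp
        · apply mul_le_mul_of_nonneg_left _ cnt_pos.le
          linarith [coef_sq_le (k := k) hQ x.1 x.2]
    _ = cnt (Fin k × Fin d) * (2 * r ^ 2 * k) := by
        rw [Finset.sum_const, Finset.card_univ, Fintype.card_prod, Fintype.card_fin,
          nsmul_eq_mul]
        push_cast
        ring

/-- Quadratic form of the sketch in terms of the off-diagonal forms. -/
lemma sketch_quad {Q : Matrix (Fin d) (Fin r) ℝ} (τ : Fin k × Fin d → Bool) (z : Fin r → ℝ) :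
    ∑ j : Fin k, (∑ i, (Q *ᵥ z) i * sg (τ (j, i))) ^ 2 =
      k * normSq (Q *ᵥ z) + ∑ x : Fin r × Fin r, (z x.1 * z x.2) * chaos Q τ x.1 x.2 := by
  set v := Q *ᵥ z with hv
  have h1 : ∑ x : Fin r × Fin r, (z x.1 * z x.2) * chaos Q τ x.1 x.2 =
      ∑ x : (Fin k × Fin d) × (Fin k × Fin d),
        (if x.1.1 = x.2.1 ∧ x.1.2 ≠ x.2.2 then v x.1.2 * v x.2.2 else 0) *
          (sg (τ x.1) * sg (τ x.2)) := by
    unfold chaos
    simp_rw [Finset.mul_sum]
    rw [Finset.sum_comm]
    refine Finset.sum_congr rfl fun x _ => ?_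
    simp_rw [← mul_assoc]
    rw [← Finset.sum_mul, ← Finset.sum_mul]
    congr 2
    unfold coef
    by_cases h : x.1.1 = x.2.1 ∧ x.1.2 ≠ x.2.2
    · simp only [if_pos h]
      rw [hv]
      simp only [mulVec, dotProduct]
      rw [Finset.sum_mul_sum, Fintype.sum_prod_type]
      refine Finset.sum_congr rfl fun a _ => Finset.sum_congr rfl fun b _ => ?_
      ring
    · simp only [if_neg h]
      simp
  rw [h1, Fintype.sum_prod_type]
  simp_rw [Fintype.sum_prod_type]
  have h2 : ∀ j : Fin k, (∑ i, v i * sg (τ (j, i))) ^ 2 = normSq v +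
      ∑ i : Fin d, ∑ i' : Fin d, (if i ≠ i' then v i * v i' else 0) *
        (sg (τ (j, i)) * sg (τ (j, i'))) := by
    intro j
    rw [pow_two, Finset.sum_mul_sum, normSq, ← Finset.sum_add_distrib]
    refine Finset.sum_congr rfl fun i _ => ?_
    have e : ∀ i', v i * sg (τ (j, i)) * (v i' * sg (τ (j, i'))) =
        (if i = i' then v i ^ 2 else 0) + (if i ≠ i' then v i * v i' else 0) *
        (sg (τ (j, i)) * sg (τ (j, i'))) := by
      intro i'
      by_cases hi : i = i'
      · subst hi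
        rw [if_pos rfl, if_neg (by simp)]
        have := sg_mul_self (τ (j, i))
        calc v i * sg (τ (j, i)) * (v i * sg (τ (j, i)))
            = v i ^ 2 * (sg (τ (j, i)) * sg (τ (j, i))) := by ring
          _ = _ := by rw [this]; ring
      · rw [if_neg hi, if_pos hi]; ring
    simp_rw [e]
    rw [Finset.sum_add_distrib, Finset.sum_ite_eq]
    simp
  simp_rw [h2]
  rw [Finset.sum_add_distrib, Finset.sum_const, Finset.card_univ, Fintype.card_fin, nsmul_eq_mul]
  congr 1
  refine Finset.sum_congr rfl fun j _ => Finset.sum_congr rfl fun i _ => ?_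
  rw [Finset.sum_eq_single j]
  · simp
  · intro j' _ hj'
    simp [hj'.symm]
  · simp

lemma normSq_frame {Q : Matrix (Fin d) (Fin r) ℝ} (hQ : Qᵀ * Q = 1) (z : Fin r → ℝ) :
    normSq (Q *ᵥ z) = normSq z := by
  rw [normSq_eq_dot, normSq_eq_dot, dotProduct_mulVec, ← mulVec_transpose, mulVec_mulVec, hQ,
    one_mulVec]

lemma sketch_lower {Q : Matrix (Fin d) (Fin r) ℝ} (hQ : Qᵀ * Q = 1) {θ c : ℝ} (hθ : 0 ≤ θ)
    {τ : Fin k × Fin d → Bool}
    (h : ∑ x : Fin r × Fin r, chaos Q τ x.1 x.2 ^ 2 ≤ (θ * k) ^ 2) (z : Fin r → ℝ) :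
    c ^ 2 * k * (1 - θ) * normSq (Q *ᵥ z) ≤ normSq ((signMat d k c τ)ᵀ *ᵥ (Q *ᵥ z)) := by
  rw [sketch_eq, sketch_quad, normSq_frame hQ]
  have hn := normSq_nonneg z
  have h3 : |∑ x : Fin r × Fin r, (z x.1 * z x.2) * chaos Q τ x.1 x.2| ≤
      normSq z * (θ * k) := by
    have hcs := Finset.sum_mul_sq_le_sq_mul_sq Finset.univ
      (fun x : Fin r × Fin r => z x.1 * z x.2) (fun x => chaos Q τ x.1 x.2)
    have e2 : ∑ x : Fin r × Fin r, (z x.1 * z x.2) ^ 2 = normSq z ^ 2 := by
      rw [normSq, pow_two, Finset.sum_mul_sum, Fintype.sum_prod_type]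
      refine Finset.sum_congr rfl fun a _ => Finset.sum_congr rfl fun b _ => ?_
      ring
    rw [e2] at hcs
    have h4 : (∑ x : Fin r × Fin r, (z x.1 * z x.2) * chaos Q τ x.1 x.2) ^ 2 ≤
        (normSq z * (θ * k)) ^ 2 := by
      refine hcs.trans ?_
      rw [mul_pow]
      exact mul_le_mul_of_nonneg_left h (by positivity)
    exact abs_le_of_sq_le_sq h4 (by positivity)
  have h5 := (abs_le.mp h3).1
  have h6 : k * (1 - θ) * normSq z ≤ k * normSq z +
      ∑ x : Fin r × Fin r, (z x.1 * z x.2) * chaos Q τ x.1 x.2 := by linarith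
  calc c ^ 2 * k * (1 - θ) * normSq z = c ^ 2 * (k * (1 - θ) * normSq z) := by ring
    _ ≤ _ := mul_le_mul_of_nonneg_left h6 (sq_nonneg c)

/-- A subspace of dimension `r ≤ d` is contained in the range of an orthonormal frame. -/
lemma exists_frame_submodule (V : Submodule ℝ (Fin d → ℝ)) (hV : Module.finrank ℝ V = r)
    (hrd : r ≤ d) : ∃ Q : Matrix (Fin d) (Fin r) ℝ, Qᵀ * Q = 1 ∧ ∀ x ∈ V, ∃ z, x = Q *ᵥ z := by
  let b := Module.finBasisOfFinrankEq ℝ V hV
  let B : Matrix (Fin r) (Fin d) ℝ := Matrix.of fun a i => (b a : Fin d → ℝ) i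
  obtain ⟨Q, hQ, hBQ⟩ := exists_frame B (by simpa using B.rank_le_height) hrd
  refine ⟨Q, hQ, fun x hx => ?_⟩
  obtain ⟨w, hx2⟩ : ∃ w : Fin r → ℝ, x = Bᵀ *ᵥ w := by
    refine ⟨(b.repr ⟨x, hx⟩ : Fin r → ℝ), ?_⟩
    have := b.sum_repr ⟨x, hx⟩
    have h2 := congrArg (Subtype.val) this
    simp only [Submodule.coe_sum, Submodule.coe_smul] at h2
    conv_lhs => rw [← h2]
    funext i
    simp only [Finset.sum_apply, Pi.smul_apply, smul_eq_mul, mulVec, dotProduct, B,
      transpose_apply, Matrix.of_apply]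
    refine Finset.sum_congr rfl fun a _ => ?_
    ring
  refine ⟨Qᵀ *ᵥ x, ?_⟩
  have h3 : Q * Qᵀ * Bᵀ = Bᵀ := by
    have := congrArg Matrix.transpose hBQ
    rw [transpose_mul, transpose_mul, transpose_transpose] at this
    rw [Matrix.mul_assoc]
    exact this
  rw [hx2, mulVec_mulVec, mulVec_mulVec, h3]

/-- Expected size of the off-diagonal Gram entries. -/
lemma sum_gramOff_le : ∑ τ : Fin k × Fin (r + D) → Bool, gramOff r D k τ ≤
    cnt (Fin k × Fin (r + D)) * (2 * k ^ 2 * D) := by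
  unfold gramOff
  rw [Finset.sum_comm]
  calc ∑ x : Fin k × Fin k, ∑ τ : Fin k × Fin (r + D) → Bool, (if x.1 = x.2 then (0 : ℝ) else
    (∑ i : Fin D, sg (τ (x.1, Fin.natAdd r i)) * sg (τ (x.2, Fin.natAdd r i))) ^ 2)
      ≤ ∑ _x : Fin k × Fin k, cnt (Fin k × Fin (r + D)) * (2 * D) := by
        refine Finset.sum_le_sum fun x _ => ?_
        by_cases hx : x.1 = x.2
        · simp only [if_pos hx, Finset.sum_const_zero]
          have := cnt_pos (ι := Fin k × Fin (r + D))
          positivity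
        · simp only [if_neg hx]
          let emb : Fin D ↪ (Fin k × Fin (r + D)) × (Fin k × Fin (r + D)) :=
            ⟨fun i => ((x.1, Fin.natAdd r i), (x.2, Fin.natAdd r i)), by
              intro i i' h
              simp only [Prod.mk.injEq, true_and] at h
              have h1 := congrArg Fin.val h.1
              rw [Fin.val_natAdd, Fin.val_natAdd] at h1
              exact Fin.ext (by omega)⟩
          let S := (Finset.univ : Finset (Fin D)).map emb
          have h := sum_chaos_sq_le (ι := Fin k × Fin (r + D))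
            (fun y => if y ∈ S then 1 else 0) (by
              intro p
              apply if_neg
              intro hp
              obtain ⟨i, -, hi⟩ := Finset.mem_map.mp hp
              have h1 : ((x.1, Fin.natAdd r i), (x.2, Fin.natAdd r i)) = (p, p) := hi
              simp only [Prod.mk.injEq] at h1
              have h2 := congrArg Prod.fst (h1.1.trans h1.2.symm)
              exact hx h2)
          have e1 : ∀ τ : Fin k × Fin (r + D) → Bool,
              ∑ y : (Fin k × Fin (r + D)) × (Fin k × Fin (r + D)),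
                (if y ∈ S then (1 : ℝ) else 0) * (sg (τ y.1) * sg (τ y.2)) =
              ∑ i : Fin D, sg (τ (x.1, Fin.natAdd r i)) * sg (τ (x.2, Fin.natAdd r i)) := by
            intro τ
            simp only [ite_mul, one_mul, zero_mul]
            rw [Finset.sum_ite_mem, Finset.univ_inter, Finset.sum_map]
            rfl
          have e2 : ∑ y : (Fin k × Fin (r + D)) × (Fin k × Fin (r + D)),
              (if y ∈ S then (1 : ℝ) else 0) ^ 2 = D := by
            simp only [ite_pow, one_pow, ne_eq, OfNat.ofNat_ne_zero, not_false_eq_true, zero_pow]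
            rw [Finset.sum_ite_mem, Finset.univ_inter, Finset.sum_map]
            simp
          simp_rw [e1, e2] at h
          exact h
    _ = cnt (Fin k × Fin (r + D)) * (2 * k ^ 2 * D) := by
        rw [Finset.sum_const, Finset.card_univ, Fintype.card_prod, Fintype.card_fin,
          nsmul_eq_mul]
        push_cast
        ring

/-! ### The random sketch -/

/-- The sketch: zero on the extra point, a multiple of a sign matrix elsewhere. -/
def sketch (d k : ℕ) (c : ℝ) : Option (Fin k × Fin d → Bool) → Matrix (Fin d) (Fin k) ℝ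
  | none => 0
  | some τ => signMat d k c τ

/-- The weights: `θ` for the zero sketch, the rest spread uniformly over the sign patterns. -/
noncomputable def weight (d k : ℕ) (θ : ℝ) : Option (Fin k × Fin d → Bool) → ℝ
  | none => θ
  | some _ => (1 - θ) / cnt (Fin k × Fin d)

lemma weight_nonneg {θ : ℝ} (h0 : 0 ≤ θ) (h1 : θ ≤ 1) (ω : Option (Fin k × Fin d → Bool)) :
    0 ≤ weight d k θ ω := by
  cases ω with
  | none => exact h0
  | some τ =>
    have := cnt_pos (ι := Fin k × Fin d)
    exact div_nonneg (by linarith) this.le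

lemma weight_sum (θ : ℝ) : ∑ ω, weight d k θ ω = 1 := by
  rw [Fintype.sum_option]
  have h := cnt_pos (ι := Fin k × Fin d)
  have e : ∑ τ : Fin k × Fin d → Bool, weight d k θ (some τ) =
      (∑ _τ : Fin k × Fin d → Bool, (1 : ℝ)) * ((1 - θ) / cnt (Fin k × Fin d)) := by
    rw [Finset.sum_mul]
    refine Finset.sum_congr rfl fun τ _ => ?_
    simp [weight]
  have e2 : (∑ _τ : Fin k × Fin d → Bool, (1 : ℝ)) = cnt (Fin k × Fin d) := rfl
  rw [e, e2]
  simp only [weight]
  field_simp
  ring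

lemma sketch_isOSI [MeasurableSpace (Option (Fin k × Fin d → Bool))]
    [DiscreteMeasurableSpace (Option (Fin k × Fin d → Bool))]
    {θ δ c : ℝ} (hθ0 : 0 < θ) (hθ1 : θ < 1) (hk : 1 ≤ k) (hrd : r ≤ d)
    (hc : c ^ 2 * k * (1 - θ) = 1) (hδ : θ + 2 * r ^ 2 / (θ ^ 2 * k) ≤ δ) :
    IsOSI (wMeas (weight d k θ)) (sketch d k c) r 1 δ := by
  classical
  have hw := fun ω => weight_nonneg (d := d) (k := k) hθ0.le hθ1.le ω
  have hcnt := cnt_pos (ι := Fin k × Fin d)
  have hk0 : (0 : ℝ) < k := by exact_mod_cast hk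
  refine ⟨fun i j => Measurable.of_discrete, ?_, ?_⟩
  · intro x
    rw [wMeas_integral hw, Fintype.sum_option]
    have e0 : normSq ((sketch d k c none)ᵀ *ᵥ x) = 0 := by simp [sketch]
    have e1 : ∑ τ : Fin k × Fin d → Bool, weight d k θ (some τ) *
        normSq ((sketch d k c (some τ))ᵀ *ᵥ x) =
        (1 - θ) / cnt (Fin k × Fin d) * ∑ τ : Fin k × Fin d → Bool,
          normSq ((signMat d k c τ)ᵀ *ᵥ x) := by
      rw [Finset.mul_sum]
      rfl
    rw [e0, e1, sum_sketch]
    have e2 : (1 - θ) / cnt (Fin k × Fin d) * (cnt (Fin k × Fin d) * (c ^ 2 * k * normSq x)) =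
        (c ^ 2 * k * (1 - θ)) * normSq x := by
      field_simp
    rw [e2, hc]
    ring
  · intro V hV
    obtain ⟨Q, hQ, hVQ⟩ := exists_frame_submodule V hV hrd
    have := wMeas_prob (Θ := Option (Fin k × Fin d → Bool)) hw (weight_sum θ)
    set E : Set (Option (Fin k × Fin d → Bool)) :=
      {ω | ∀ x ∈ V, 1 * normSq x ≤ normSq ((sketch d k c ω)ᵀ *ᵥ x)} with hE
    have hgood : ∀ τ : Fin k × Fin d → Bool,
        ∑ x : Fin r × Fin r, chaos Q τ x.1 x.2 ^ 2 ≤ (θ * k) ^ 2 → some τ ∈ E := by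
      intro τ hτ x hx
      obtain ⟨z, rfl⟩ := hVQ x hx
      have := sketch_lower (c := c) hQ hθ0.le hτ z
      rw [hc] at this
      exact this
    have hcompl : (wMeas (weight d k θ)).real Eᶜ ≤ δ := by
      rw [wMeas_real hw, Fintype.sum_option]
      have h1 : weight d k θ none * Eᶜ.indicator 1 none ≤ θ := by
        have : Eᶜ.indicator (1 : Option (Fin k × Fin d → Bool) → ℝ) none ≤ 1 :=
          Set.indicator_le_self' (fun _ _ => by norm_num) _
        calc weight d k θ none * Eᶜ.indicator 1 none = θ * Eᶜ.indicator 1 none := rfl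
          _ ≤ θ * 1 := mul_le_mul_of_nonneg_left this hθ0.le
          _ = θ := mul_one θ
      have h2 : ∀ τ : Fin k × Fin d → Bool, weight d k θ (some τ) * Eᶜ.indicator 1 (some τ) ≤
          1 / cnt (Fin k × Fin d) *
            ((∑ x : Fin r × Fin r, chaos Q τ x.1 x.2 ^ 2) / (θ * k) ^ 2) := by
        intro τ
        have hle : weight d k θ (some τ) ≤ 1 / cnt (Fin k × Fin d) := by
          simp only [weight]
          exact div_le_div_of_nonneg_right (by linarith) hcnt.le
        have hpos : 0 ≤ (∑ x : Fin r × Fin r, chaos Q τ x.1 x.2 ^ 2) / (θ * k) ^ 2 :=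
          div_nonneg (Finset.sum_nonneg fun _ _ => sq_nonneg _) (sq_nonneg _)
        by_cases hτ : some τ ∈ E
        · rw [Set.indicator_of_notMem (by simpa using hτ), mul_zero]
          positivity
        · rw [Set.indicator_of_mem (by simpa using hτ), Pi.one_apply, mul_one]
          have h3 : 1 ≤ (∑ x : Fin r × Fin r, chaos Q τ x.1 x.2 ^ 2) / (θ * k) ^ 2 := by
            rw [le_div_iff₀ (by positivity), one_mul]
            by_contra hcon
            exact hτ (hgood τ (not_le.mp hcon).le)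
          calc weight d k θ (some τ) ≤ 1 / cnt (Fin k × Fin d) * 1 := by rw [mul_one]; exact hle
            _ ≤ _ := mul_le_mul_of_nonneg_left h3 (by positivity)
      have h4 := Finset.sum_le_sum fun τ (_ : τ ∈ Finset.univ) => h2 τ
      rw [← Finset.mul_sum, ← Finset.sum_div] at h4
      have h5 : 1 / cnt (Fin k × Fin d) * ((∑ τ : Fin k × Fin d → Bool,
          ∑ x : Fin r × Fin r, chaos Q τ x.1 x.2 ^ 2) / (θ * k) ^ 2) ≤
          2 * r ^ 2 / (θ ^ 2 * k) := by
        have h6 := sum_chaos_le (k := k) hQ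
        have h7 : (∑ τ : Fin k × Fin d → Bool,
          ∑ x : Fin r × Fin r, chaos Q τ x.1 x.2 ^ 2) / (θ * k) ^ 2 ≤
            cnt (Fin k × Fin d) * (2 * r ^ 2 * k) / (θ * k) ^ 2 :=
          div_le_div_of_nonneg_right h6 (sq_nonneg _)
        calc _ ≤ 1 / cnt (Fin k × Fin d) *
              (cnt (Fin k × Fin d) * (2 * r ^ 2 * k) / (θ * k) ^ 2) :=
              mul_le_mul_of_nonneg_left h7 (by positivity)
          _ = 2 * r ^ 2 / (θ ^ 2 * k) := by field_simp
      linarith
    rw [probReal_compl_eq_one_sub MeasurableSet.of_discrete] at hcompl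
    rw [measureReal_def] at hcompl
    exact (ENNReal.ofReal_le_iff_le_toReal (measure_ne_top _ _)).mpr (by linarith)

/-- **Q1 fails for every fixed failure probability.** For every `r ≥ 1` and `δ ∈ (0, 1)` there is
`c₀ > 0` such that for every `p > 0` there are an oblivious subspace injection `Ω` with subspace
dimension `r`, injectivity `1` and failure probability `δ`, a matrix `A` and a matrix `B` of rank
at most `r`, for which `‖A - Ã‖_F ≤ (1 + c₀) ‖A - B‖_F` holds with probability at most `p`. -/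
theorem result (r : ℕ) (hr : 1 ≤ r) (δ : ℝ) (hδ0 : 0 < δ) (hδ1 : δ < 1) :
    ∃ c₀ : ℝ, 0 < c₀ ∧ ∀ p : ℝ, 0 < p →
      ∃ (d k : ℕ) (Θ : Type) (_ : MeasurableSpace Θ) (μ : Measure Θ)
        (Ω : Θ → Matrix (Fin d) (Fin k) ℝ) (A B : Matrix (Fin d) (Fin d) ℝ),
        IsProbabilityMeasure μ ∧ r ≤ d ∧ IsOSI μ Ω r 1 δ ∧ B.rank ≤ r ∧
        μ {ω | frobNorm (A - rsvd A (Ω ω)) ≤ (1 + c₀) * frobNorm (A - B)} ≤
          ENNReal.ofReal p := by
  classical
  obtain ⟨r, rfl⟩ : ∃ r', r = r' + 1 := ⟨r - 1, by omega⟩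
  have hkpos : (0 : ℝ) < 16 * ((r + 1 : ℕ) : ℝ) ^ 2 / δ ^ 3 := by positivity
  obtain ⟨k, hk, hkle⟩ : ∃ k : ℕ, 1 ≤ k ∧ 16 * ((r + 1 : ℕ) : ℝ) ^ 2 / δ ^ 3 ≤ k :=
    ⟨⌈16 * ((r + 1 : ℕ) : ℝ) ^ 2 / δ ^ 3⌉₊,
      Nat.one_le_iff_ne_zero.mpr (Nat.ceil_pos.mpr hkpos).ne', Nat.le_ceil _⟩
  have hk1 : (1 : ℝ) ≤ k := by exact_mod_cast hk
  refine ⟨1 / (32 * k), by positivity, fun p hp => ?_⟩
  obtain ⟨D, hD, hD1, hD2⟩ : ∃ D : ℕ, 1 ≤ D ∧ 8 * (k : ℝ) ^ 2 / p ≤ D ∧
      8 * (k : ℝ) ^ 2 < D := by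
    refine ⟨⌈8 * (k : ℝ) ^ 2 / p⌉₊ + 8 * k ^ 2 + 1, by omega, ?_, ?_⟩
    · have := Nat.le_ceil (8 * (k : ℝ) ^ 2 / p)
      have h0 : (0 : ℝ) ≤ 8 * (k : ℝ) ^ 2 := by positivity
      push_cast
      linarith
    · push_cast
      have : (0 : ℝ) ≤ (⌈8 * (k : ℝ) ^ 2 / p⌉₊ : ℝ) := by positivity
      linarith
  have hD0 : (1 : ℝ) ≤ D := by exact_mod_cast hD
  obtain ⟨θ, hθ⟩ : ∃ θ : ℝ, θ = δ / 2 := ⟨_, rfl⟩
  have hθ0 : 0 < θ := by rw [hθ]; positivity
  have hθ1 : θ < 1 := by linarith
  obtain ⟨c, hcdef⟩ : ∃ c : ℝ, c = 1 / Real.sqrt (k * (1 - θ)) := ⟨_, rfl⟩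
  have hc : c ^ 2 * k * (1 - θ) = 1 := by
    have h1 : 0 < (k : ℝ) * (1 - θ) := mul_pos (by linarith) (by linarith)
    rw [hcdef, div_pow, Real.sq_sqrt h1.le]
    have h2 : (1 : ℝ) - θ ≠ 0 := by linarith
    field_simp
  have hδ : θ + 2 * ((r + 1 : ℕ) : ℝ) ^ 2 / (θ ^ 2 * k) ≤ δ := by
    have h1 : 2 * ((r + 1 : ℕ) : ℝ) ^ 2 / (θ ^ 2 * k) ≤ δ / 2 := by
      rw [div_le_iff₀ (by positivity)]
      rw [div_le_iff₀ (by positivity)] at hkle
      have : δ / 2 * (θ ^ 2 * k) = k * δ ^ 3 / 8 := by rw [hθ]; ring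
      rw [this]
      linarith
    linarith
  let _ : MeasurableSpace (Option (Fin k × Fin (r + 1 + D) → Bool)) := ⊤
  have : DiscreteMeasurableSpace (Option (Fin k × Fin (r + 1 + D) → Bool)) := ⟨fun _ => trivial⟩
  have hw := fun ω => weight_nonneg (d := r + 1 + D) (k := k) hθ0.le hθ1.le ω
  have hcnt := cnt_pos (ι := Fin k × Fin (r + 1 + D))
  have := wMeas_prob (Θ := Option (Fin k × Fin (r + 1 + D) → Bool)) hw (weight_sum θ)
  refine ⟨r + 1 + D, k, Option (Fin k × Fin (r + 1 + D) → Bool), inferInstance,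
    wMeas (weight (r + 1 + D) k θ), sketch (r + 1 + D) k c,
    dg (r + 1) D (Real.sqrt D) 1, dg (r + 1) D (Real.sqrt D) 0, inferInstance, by omega,
    sketch_isOSI hθ0 hθ1 hk (by omega) hc hδ, rank_dg_le _, ?_⟩
  set A := dg (r + 1) D (Real.sqrt D) 1 with hA
  set B := dg (r + 1) D (Real.sqrt D) 0 with hB
  have hAB : frobNorm (A - B) = Real.sqrt D := by
    rw [frobNorm_eq, hA, hB, dg_sub, frobSq_dg]
    simp
  set S : Set (Option (Fin k × Fin (r + 1 + D) → Bool)) :=
    {ω | frobNorm (A - rsvd A (sketch (r + 1 + D) k c ω)) ≤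
      (1 + 1 / (32 * k)) * frobNorm (A - B)} with hS
  -- consequence of membership
  have hmem : ∀ ω ∈ S, frobSq (A - rsvd A (sketch (r + 1 + D) k c ω)) ≤
      D * (1 + 1 / (8 * k)) := by
    intro ω hω
    have h1 : frobNorm (A - rsvd A (sketch (r + 1 + D) k c ω)) ≤
      (1 + 1 / (32 * k)) * Real.sqrt D := by rw [← hAB]; exact hω
    have h2 : 0 ≤ frobNorm (A - rsvd A (sketch (r + 1 + D) k c ω)) := Real.sqrt_nonneg _
    rw [← frobNorm_sq]
    calc frobNorm (A - rsvd A (sketch (r + 1 + D) k c ω)) ^ 2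
        ≤ ((1 + 1 / (32 * k)) * Real.sqrt D) ^ 2 := pow_le_pow_left₀ h2 h1 2
      _ = D * (1 + 1 / (32 * k)) ^ 2 := by
          rw [mul_pow, Real.sq_sqrt (by positivity)]; ring
      _ ≤ D * (1 + 1 / (8 * k)) := by
          apply mul_le_mul_of_nonneg_left _ (by positivity)
          obtain ⟨t, ht⟩ : ∃ t : ℝ, t = 1 / (32 * k) := ⟨_, rfl⟩
          have ht1 : 1 / (8 * (k : ℝ)) = 4 * t := by rw [ht]; field_simp; norm_num
          have ht2 : t ≤ 1 := by
            rw [ht, div_le_one (by positivity)]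
            linarith
          have ht3 : 0 ≤ t := by rw [ht]; positivity
          rw [← ht, ht1]
          nlinarith
  -- the zero sketch
  have hnone : none ∉ S := by
    intro h
    have h1 := hmem none h
    have h2 : rsvd A (sketch (r + 1 + D) k c none) = 0 := by
      unfold rsvd
      simp [sketch]
    rw [h2, sub_zero, hA, frobSq_dg, Real.sq_sqrt (by positivity)] at h1
    have h3 : (1 : ℝ) / (8 * k) ≤ 1 / 8 := by
      apply one_div_le_one_div_of_le (by norm_num)
      linarith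
    have h4 : (D : ℝ) * (1 + 1 / (8 * k)) ≤ D * (1 + 1 / 8) :=
      mul_le_mul_of_nonneg_left (by linarith) (by positivity)
    have h5 : (D : ℝ) ≤ ((r + 1 : ℕ) : ℝ) * D := by
      have : (1 : ℝ) ≤ ((r + 1 : ℕ) : ℝ) := by push_cast; linarith [Nat.cast_nonneg (α := ℝ) r]
      nlinarith
    linarith
  -- the sign sketches
  have hsome : ∀ τ : Fin k × Fin (r + 1 + D) → Bool, some τ ∈ S →
      ((D : ℝ) / 2) ^ 2 < gramOff (r + 1) D k τ := by
    intro τ hτ
    by_contra hcon
    have h1 := error_lower hk hD τ c (not_lt.mp hcon)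
    have h2 := hmem (some τ) hτ
    have h3 : (D : ℝ) - k + D / (4 * k) ≤ D * (1 + 1 / (8 * k)) := h1.trans h2
    have h4 : (D : ℝ) / (4 * k) = D * (1 / (8 * k)) + D * (1 / (8 * k)) := by
      field_simp; norm_num
    have h5 : (D : ℝ) * (1 / (8 * k)) ≤ k := by linarith
    have h6 : (k : ℝ) < D * (1 / (8 * k)) := by
      rw [mul_one_div, lt_div_iff₀ (by positivity)]
      nlinarith
    linarith
  have hreal : (wMeas (weight (r + 1 + D) k θ)).real S ≤ p := by
    rw [wMeas_real hw, Fintype.sum_option, Set.indicator_of_notMem hnone, mul_zero, zero_add]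
    have h2 : ∀ τ : Fin k × Fin (r + 1 + D) → Bool,
        weight (r + 1 + D) k θ (some τ) * S.indicator 1 (some τ) ≤
          1 / cnt (Fin k × Fin (r + 1 + D)) * (gramOff (r + 1) D k τ / ((D : ℝ) / 2) ^ 2) := by
      intro τ
      have hle : weight (r + 1 + D) k θ (some τ) ≤ 1 / cnt (Fin k × Fin (r + 1 + D)) := by
        simp only [weight]
        exact div_le_div_of_nonneg_right (by linarith) hcnt.le
      have hg0 : 0 ≤ gramOff (r + 1) D k τ := by
        unfold gramOff
        refine Finset.sum_nonneg fun x _ => ?_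
        split_ifs
        · exact le_refl _
        · exact sq_nonneg _
      by_cases hτ : some τ ∈ S
      · rw [Set.indicator_of_mem hτ, Pi.one_apply, mul_one]
        have h3 : 1 ≤ gramOff (r + 1) D k τ / ((D : ℝ) / 2) ^ 2 := by
          rw [le_div_iff₀ (by positivity), one_mul]
          exact (hsome τ hτ).le
        calc weight (r + 1 + D) k θ (some τ) ≤ 1 / cnt (Fin k × Fin (r + 1 + D)) * 1 := by
              rw [mul_one]; exact hle
          _ ≤ _ := mul_le_mul_of_nonneg_left h3 (by positivity)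
      · rw [Set.indicator_of_notMem hτ, mul_zero]
        positivity
    refine (Finset.sum_le_sum fun τ _ => h2 τ).trans ?_
    rw [← Finset.mul_sum, ← Finset.sum_div]
    have h6 := sum_gramOff_le (k := k) (r := r + 1) (D := D)
    have h7 : (∑ τ : Fin k × Fin (r + 1 + D) → Bool, gramOff (r + 1) D k τ) /
        ((D : ℝ) / 2) ^ 2 ≤
          cnt (Fin k × Fin (r + 1 + D)) * (2 * k ^ 2 * D) / ((D : ℝ) / 2) ^ 2 :=
      div_le_div_of_nonneg_right h6 (sq_nonneg _)
    calc _ ≤ 1 / cnt (Fin k × Fin (r + 1 + D)) *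
          (cnt (Fin k × Fin (r + 1 + D)) * (2 * k ^ 2 * D) / ((D : ℝ) / 2) ^ 2) :=
          mul_le_mul_of_nonneg_left h7 (by positivity)
      _ = 8 * k ^ 2 / D := by field_simp; norm_num
      _ ≤ p := by
          rw [div_le_iff₀ hp] at hD1
          rw [div_le_iff₀ (by positivity)]
          linarith
  rw [measureReal_def] at hreal
  exact (ENNReal.le_ofReal_iff_toReal_le (measure_ne_top _ _) hp.le).mpr hreal

end Pool.Agent.Results.MP_082b65_an.ConstantFailureCounterexample
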