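import Pool.Agent.Lib.OSI36.Row

/-!
# Relative-error randomized SVD from an oblivious subspace injection

The answer to Q2 is yes, already with failure probability `δ = O(ε)`.
-/

namespace Pool.Agent.Results.MP_082b65_an.RelativeErrorRSVD

open Matrix MeasureTheory Pool.Agent.Lib.OSI36

variable {n d k r : ℕ} {Θ : Type*} [MeasurableSpace Θ] {μ : Measure Θ}
  {Ω : Θ → Matrix (Fin d) (Fin k) ℝ} {α δ : ℝ}

lemma continuous_normSq {m : ℕ} : Continuous (normSq : (Fin m → ℝ) → ℝ) := by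
  unfold normSq
  fun_prop

lemma measurable_sketch (hΩ : IsOSI μ Ω r α δ) (x : Fin d → ℝ) :
    Measurable (fun ω => normSq ((Ω ω)ᵀ *ᵥ x)) := by
  unfold normSq
  simp only [mulVec, dotProduct, transpose_apply]
  have := hΩ.measurable
  fun_prop

/-- The injectivity event for a fixed set of vectors is measurable. -/
lemma measurableSet_event (hΩ : IsOSI μ Ω r α δ) (V : Set (Fin d → ℝ)) :
    MeasurableSet {ω | ∀ x ∈ V, α * normSq x ≤ normSq ((Ω ω)ᵀ *ᵥ x)} := by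
  have h1 : IsClosed {W : Fin d → Fin k → ℝ | ∀ x ∈ V,
      α * normSq x ≤ normSq ((Matrix.of W)ᵀ *ᵥ x)} := by
    have : {W : Fin d → Fin k → ℝ | ∀ x ∈ V, α * normSq x ≤ normSq ((Matrix.of W)ᵀ *ᵥ x)} =
        ⋂ x ∈ V, {W : Fin d → Fin k → ℝ | α * normSq x ≤ normSq ((Matrix.of W)ᵀ *ᵥ x)} := by
      ext W; simp
    rw [this]
    refine isClosed_biInter fun x _ => isClosed_le continuous_const ?_
    unfold normSq
    simp only [mulVec, dotProduct, transpose_apply, Matrix.of_apply]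
    fun_prop
  have h2 : Measurable (fun ω => (fun i j => Ω ω i j : Fin d → Fin k → ℝ)) :=
    measurable_pi_lambda _ fun i => measurable_pi_lambda _ fun j => hΩ.measurable i j
  exact h2 h1.measurableSet

/-- The injectivity event of a linear map. -/
def Ev (Ω : Θ → Matrix (Fin d) (Fin k) ℝ) (α : ℝ) (q : (Fin r → ℝ) →ₗ[ℝ] (Fin d → ℝ)) : Set Θ :=
  {ω | ∀ x ∈ Set.range q, α * normSq x ≤ normSq ((Ω ω)ᵀ *ᵥ x)}

lemma measurableSet_Ev (hΩ : IsOSI μ Ω r α δ) (q : (Fin r → ℝ) →ₗ[ℝ] (Fin d → ℝ)) :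
    MeasurableSet (Ev Ω α q) := measurableSet_event hΩ _

lemma compl_Ev_le [IsProbabilityMeasure μ] (hΩ : IsOSI μ Ω r α δ)
    (q : (Fin r → ℝ) →ₗ[ℝ] (Fin d → ℝ)) (hq : Function.Injective q) :
    μ.real (Ev Ω α q)ᶜ ≤ δ := by
  have h1 := hΩ.injective (LinearMap.range q) (by
    rw [LinearMap.finrank_range_of_inj hq]; simp)
  have h2 : {ω | ∀ x ∈ LinearMap.range q, α * normSq x ≤ normSq ((Ω ω)ᵀ *ᵥ x)} = Ev Ω α q := by
    unfold Ev
    ext ω
    simp
  rw [h2] at h1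
  have h3 : 1 - δ ≤ μ.real (Ev Ω α q) := by
    rw [measureReal_def]
    exact (ENNReal.ofReal_le_iff_le_toReal (measure_ne_top _ _)).mp h1
  rw [probReal_compl_eq_one_sub (measurableSet_Ev hΩ q)]
  linarith

lemma integrable_sketch (hΩ : IsOSI μ Ω r α δ) (x : Fin d → ℝ) :
    Integrable (fun ω => normSq ((Ω ω)ᵀ *ᵥ x)) μ := by
  by_cases hx : x = 0
  · subst hx
    simp
  · apply Integrable.of_integral_ne_zero
    rw [hΩ.isotropic x]
    intro h
    exact hx (normSq_eq_zero h)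

/-- The linear map `z ↦ β • Q z' + z₀ • b` and its variants: `z ↦ β • Q z + z₀ • c`. -/
def qmap {r : ℕ} (Q : Matrix (Fin d) (Fin (r + 1)) ℝ) (β : ℝ) (c : Fin d → ℝ) :
    (Fin (r + 1) → ℝ) →ₗ[ℝ] (Fin d → ℝ) :=
  β • Q.mulVecLin + (LinearMap.proj 0).smulRight c

lemma qmap_apply {r : ℕ} (Q : Matrix (Fin d) (Fin (r + 1)) ℝ) (β : ℝ) (c : Fin d → ℝ)
    (z : Fin (r + 1) → ℝ) : qmap Q β c z = β • (Q *ᵥ z) + z 0 • c := by
  simp [qmap]

lemma qmap_injective {r : ℕ} {Q : Matrix (Fin d) (Fin (r + 1)) ℝ} (hQ : Qᵀ * Q = 1) {β : ℝ}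
    (hβ : 0 < β) {b : Fin d → ℝ} (hb : Qᵀ *ᵥ b = 0) (hb2 : normSq b = β ^ 2) (t : ℝ) (u : ℝ)
    (hut : u ≠ 0) :
    Function.Injective (qmap Q β (t • (Q *ᵥ Pi.single 0 1) + u • b)) := by
  rw [← LinearMap.ker_eq_bot, LinearMap.ker_eq_bot']
  intro z hz
  rw [qmap_apply] at hz
  have h1 : Qᵀ *ᵥ (β • (Q *ᵥ z) + z 0 • (t • (Q *ᵥ Pi.single 0 1) + u • b)) = 0 := by
    rw [hz, mulVec_zero]
  rw [mulVec_add, mulVec_smul, mulVec_smul, mulVec_add, mulVec_smul, mulVec_smul, hb,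
    mulVec_mulVec, mulVec_mulVec, hQ, one_mulVec, one_mulVec] at h1
  -- dot with `b`
  have h2 : (β • (Q *ᵥ z) + z 0 • (t • (Q *ᵥ Pi.single 0 1) + u • b)) ⬝ᵥ b = 0 := by
    rw [hz, zero_dotProduct]
  have h3 : ∀ w, (Q *ᵥ w) ⬝ᵥ b = 0 := by
    intro w
    rw [dotProduct_comm, dotProduct_mulVec, ← mulVec_transpose, hb, zero_dotProduct]
  rw [add_dotProduct, smul_dotProduct, smul_dotProduct, add_dotProduct, smul_dotProduct,
    smul_dotProduct, h3, h3, ← normSq_eq_dot, hb2] at h2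
  simp only [smul_eq_mul, mul_zero, zero_add] at h2
  have hz0 : z 0 = 0 := by
    have : z 0 * (u * β ^ 2) = 0 := h2
    rcases mul_eq_zero.mp this with h | h
    · exact h
    · exfalso
      have : u * β ^ 2 ≠ 0 := mul_ne_zero hut (by positivity)
      exact this h
  rw [hz0] at h1
  simp only [zero_smul, add_zero] at h1
  exact (smul_eq_zero.mp h1).resolve_left hβ.ne'

lemma frame_injective {Q : Matrix (Fin d) (Fin r) ℝ} (hQ : Qᵀ * Q = 1) :
    Function.Injective Q.mulVecLin := by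
  rw [← LinearMap.ker_eq_bot, LinearMap.ker_eq_bot']
  intro z hz
  have : Qᵀ *ᵥ (Q.mulVecLin z) = 0 := by rw [hz, mulVec_zero]
  rwa [mulVecLin_apply, mulVec_mulVec, hQ, one_mulVec] at this

lemma normSq_frame {Q : Matrix (Fin d) (Fin r) ℝ} (hQ : Qᵀ * Q = 1) (z : Fin r → ℝ) :
    normSq (Q *ᵥ z) = normSq z := by
  rw [normSq_eq_dot, normSq_eq_dot, dotProduct_mulVec, ← mulVec_transpose, mulVec_mulVec, hQ,
    one_mulVec]

/-- The good event for the right-hand side `b`. -/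
def Good {r : ℕ} (Ω : Θ → Matrix (Fin d) (Fin k) ℝ) (α : ℝ)
    (Q : Matrix (Fin d) (Fin (r + 1)) ℝ) (β : ℝ) (b : Fin d → ℝ) : Set Θ :=
  Ev Ω α Q.mulVecLin ∩
    (Ev Ω α (qmap Q β ((-β) • (Q *ᵥ Pi.single 0 1) + (1 : ℝ) • b)) ∩
      (Ev Ω α (qmap Q β ((0 : ℝ) • (Q *ᵥ Pi.single 0 1) + (1 : ℝ) • b)) ∩
        Ev Ω α (qmap Q β ((0 : ℝ) • (Q *ᵥ Pi.single 0 1) + (-1 : ℝ) • b))))

lemma measurableSet_Good {r : ℕ} (hΩ : IsOSI μ Ω (r + 1) α δ)
    (Q : Matrix (Fin d) (Fin (r + 1)) ℝ) (β : ℝ) (b : Fin d → ℝ) :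
    MeasurableSet (Good Ω α Q β b) :=
  (measurableSet_Ev hΩ _).inter ((measurableSet_Ev hΩ _).inter
    ((measurableSet_Ev hΩ _).inter (measurableSet_Ev hΩ _)))

lemma compl_Good_le {r : ℕ} [IsProbabilityMeasure μ] (hΩ : IsOSI μ Ω (r + 1) α δ)
    {Q : Matrix (Fin d) (Fin (r + 1)) ℝ} (hQ : Qᵀ * Q = 1) {β : ℝ}
    (hβ : 0 < β) {b : Fin d → ℝ} (hb : Qᵀ *ᵥ b = 0) (hb2 : normSq b = β ^ 2) :
    μ.real (Good Ω α Q β b)ᶜ ≤ 4 * δ := by
  unfold Good
  rw [Set.compl_inter, Set.compl_inter, Set.compl_inter]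
  have h1 := compl_Ev_le hΩ _ (frame_injective hQ)
  have h2 := compl_Ev_le hΩ _ (qmap_injective hQ hβ hb hb2 (-β) 1 (by norm_num))
  have h3 := compl_Ev_le hΩ _ (qmap_injective hQ hβ hb hb2 0 1 (by norm_num))
  have h4 := compl_Ev_le hΩ _ (qmap_injective hQ hβ hb hb2 0 (-1) (by norm_num))
  have u1 := measureReal_union_le (μ := μ) (Ev Ω α Q.mulVecLin)ᶜ
    ((Ev Ω α (qmap Q β ((-β) • (Q *ᵥ Pi.single 0 1) + (1 : ℝ) • b)))ᶜ ∪
      ((Ev Ω α (qmap Q β ((0 : ℝ) • (Q *ᵥ Pi.single 0 1) + (1 : ℝ) • b)))ᶜ ∪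
        (Ev Ω α (qmap Q β ((0 : ℝ) • (Q *ᵥ Pi.single 0 1) + (-1 : ℝ) • b)))ᶜ))
  have u2 := measureReal_union_le (μ := μ)
    (Ev Ω α (qmap Q β ((-β) • (Q *ᵥ Pi.single 0 1) + (1 : ℝ) • b)))ᶜ
      ((Ev Ω α (qmap Q β ((0 : ℝ) • (Q *ᵥ Pi.single 0 1) + (1 : ℝ) • b)))ᶜ ∪
        (Ev Ω α (qmap Q β ((0 : ℝ) • (Q *ᵥ Pi.single 0 1) + (-1 : ℝ) • b)))ᶜ)
  have u3 := measureReal_union_le (μ := μ)
      (Ev Ω α (qmap Q β ((0 : ℝ) • (Q *ᵥ Pi.single 0 1) + (1 : ℝ) • b)))ᶜ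
        (Ev Ω α (qmap Q β ((0 : ℝ) • (Q *ᵥ Pi.single 0 1) + (-1 : ℝ) • b)))ᶜ
  linarith

omit [MeasurableSpace Θ] in
/-- On the good event the excess error of one row is controlled. -/
lemma good_bound {r : ℕ} {Q : Matrix (Fin d) (Fin (r + 1)) ℝ} (hQ : Qᵀ * Q = 1) {β : ℝ}
    (hα : 0 < α) (hβ : 0 < β) {b : Fin d → ℝ} (hb : Qᵀ *ᵥ b = 0) (hb2 : normSq b = β ^ 2) {ω : Θ}
    (hω : ω ∈ Good Ω α Q β b) {s : Fin (r + 1) → ℝ}
    (hs : ∀ z, (((Ω ω)ᵀ * Q) *ᵥ s) ⬝ᵥ (((Ω ω)ᵀ * Q) *ᵥ z) =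
      ((Ω ω)ᵀ *ᵥ b) ⬝ᵥ (((Ω ω)ᵀ * Q) *ᵥ z)) :
    α * normSq s ≤ 5 * (β ^ 2 * normSq ((Ω ω)ᵀ *ᵥ (Q *ᵥ Pi.single 0 1)) +
      normSq ((Ω ω)ᵀ *ᵥ b) - 2 * α * β ^ 2) := by
  obtain ⟨w1, w2, w3, w4⟩ := hω
  set W := (Ω ω)ᵀ with hW
  set e0 : Fin (r + 1) → ℝ := Pi.single 0 1 with he0
  have hQb : ∀ w, (Q *ᵥ w) ⬝ᵥ b = 0 := by
    intro w
    rw [dotProduct_comm, dotProduct_mulVec, ← mulVec_transpose, hb, zero_dotProduct]
  have hQb' : ∀ w, b ⬝ᵥ (Q *ᵥ w) = 0 := fun w => by rw [dotProduct_comm, hQb]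
  have hbb : b ⬝ᵥ b = β ^ 2 := by rw [← normSq_eq_dot, hb2]
  have hQQ : ∀ w, (Q *ᵥ w) ⬝ᵥ (Q *ᵥ w) = normSq w := fun w => by
    rw [← normSq_eq_dot, normSq_frame hQ]
  have he00 : e0 0 = 1 := by simp [he0]
  have hne0 : normSq e0 = 1 := by rw [normSq_eq_dot, he0]; simp
  have hnorm1 : ∀ (w : Fin (r + 1) → ℝ) (t : ℝ), normSq (Q *ᵥ w + t • b) =
      normSq w + t ^ 2 * β ^ 2 := by
    intro w t
    rw [normSq_eq_dot, add_dotProduct, dotProduct_add, dotProduct_add, smul_dotProduct,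
      smul_dotProduct, dotProduct_smul, dotProduct_smul, hQQ, hQb, hQb', hbb]
    simp only [smul_eq_mul]
    ring
  have key : normSq (W *ᵥ (Q *ᵥ e0)) = normSq ((W * Q) *ᵥ e0) := by rw [mulVec_mulVec]
  rw [key]
  refine row_bound_good hα hβ hs ?_ ?_ ?_ ?_ ?_
  · intro z
    have := w1 (Q *ᵥ z) ⟨z, rfl⟩
    rwa [normSq_frame hQ, mulVec_mulVec] at this
  · -- the vector `b`
    have := w2 b ⟨e0, by
      rw [qmap_apply, he00]
      simp⟩
    rwa [hb2] at this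
  · -- the vector `Q s' - b`
    set s' := s - s 0 • e0 with hs'
    have hs'0 : s' 0 = 0 := by simp [hs', he00]
    have := w2 (Q *ᵥ s' + (-1 : ℝ) • b) ⟨β⁻¹ • s' - e0, by
      rw [qmap_apply, mulVec_sub, mulVec_smul, smul_sub, smul_smul, mul_inv_cancel₀ hβ.ne',
        one_smul]
      simp only [Pi.sub_apply, Pi.smul_apply, hs'0, he00, smul_zero, zero_sub, smul_add,
        smul_smul]
      module⟩
    rw [hnorm1] at this
    have e1 : W *ᵥ (Q *ᵥ s' + (-1 : ℝ) • b) = (W * Q) *ᵥ s' - W *ᵥ b := by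
      rw [mulVec_add, mulVec_smul, mulVec_mulVec]
      module
    rw [← hW, e1] at this
    have e2 : α * (normSq s' + (-1) ^ 2 * β ^ 2) = α * (normSq s' + β ^ 2) := by ring
    rw [e2] at this
    exact this
  · have := w3 (Q *ᵥ (β • e0) + (1 : ℝ) • b) ⟨e0, by
      rw [qmap_apply, he00, mulVec_smul]
      simp⟩
    rw [hnorm1] at this
    have e1 : W *ᵥ (Q *ᵥ (β • e0) + (1 : ℝ) • b) = β • ((W * Q) *ᵥ e0) + W *ᵥ b := by
      rw [mulVec_add, mulVec_smul, mulVec_smul, mulVec_smul, mulVec_mulVec]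
      module
    have e2 : normSq (β • e0) = β ^ 2 := by
      rw [normSq_eq_dot, smul_dotProduct, dotProduct_smul, ← normSq_eq_dot, hne0]
      simp only [smul_eq_mul]; ring
    rw [← hW, e1, e2] at this
    linarith
  · have := w4 (Q *ᵥ (β • e0) + (-1 : ℝ) • b) ⟨e0, by
      rw [qmap_apply, he00, mulVec_smul]
      simp⟩
    rw [hnorm1] at this
    have e1 : W *ᵥ (Q *ᵥ (β • e0) + (-1 : ℝ) • b) = β • ((W * Q) *ᵥ e0) - W *ᵥ b := by
      rw [mulVec_add, mulVec_smul, mulVec_smul, mulVec_smul, mulVec_mulVec]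
      module
    have e2 : normSq (β • e0) = β ^ 2 := by
      rw [normSq_eq_dot, smul_dotProduct, dotProduct_smul, ← normSq_eq_dot, hne0]
      simp only [smul_eq_mul]; ring
    rw [← hW, e1, e2] at this
    linarith

omit [MeasurableSpace Θ] in
/-- On the complement of the good event the majorant is still nonnegative. -/
lemma good_nonneg {r : ℕ} {Q : Matrix (Fin d) (Fin (r + 1)) ℝ} (hQ : Qᵀ * Q = 1) {β : ℝ}
    (hβ : 0 < β) {b : Fin d → ℝ} (hb2 : normSq b = β ^ 2) {ω : Θ}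
    (hω : ω ∈ Good Ω α Q β b) :
    0 ≤ β ^ 2 * normSq ((Ω ω)ᵀ *ᵥ (Q *ᵥ Pi.single 0 1)) +
      normSq ((Ω ω)ᵀ *ᵥ b) - 2 * α * β ^ 2 := by
  obtain ⟨w1, w2, -, -⟩ := hω
  have h1 := w1 (Q *ᵥ Pi.single 0 1) ⟨Pi.single 0 1, rfl⟩
  have h2 := w2 b ⟨Pi.single 0 1, by rw [qmap_apply]; simp⟩
  rw [normSq_frame hQ, normSq_eq_dot (Pi.single 0 1)] at h1
  simp only [dotProduct_single, Pi.single_eq_same, mul_one] at h1
  rw [hb2] at h2
  have h3 : β ^ 2 * α ≤ β ^ 2 * normSq ((Ω ω)ᵀ *ᵥ (Q *ᵥ Pi.single 0 1)) :=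
    mul_le_mul_of_nonneg_left h1 (by positivity)
  linarith

/-- The event in the main theorem is measurable. -/
lemma measurableSet_bound (hΩ : ∀ i j, Measurable (fun ω => Ω ω i j))
    (A : Matrix (Fin n) (Fin d) ℝ) (c : ℝ) :
    MeasurableSet {ω | frobNorm (A - rsvd A (Ω ω)) ≤ c} := by
  -- the residual is the infimum over `X` of `‖A - A Ω X‖`, hence upper semicontinuous in `Ω`
  have hmin : ∀ W : Matrix (Fin d) (Fin k) ℝ, ∃ X : Matrix (Fin k) (Fin d) ℝ,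
      A - rsvd A W = A - A * W * X :=
    fun W => ⟨pinv (A * W) * A, by unfold rsvd; rw [← Matrix.mul_assoc]⟩
  have e : {ω | frobNorm (A - rsvd A (Ω ω)) ≤ c} =
      ⋂ m : ℕ, (fun ω => (fun i j => Ω ω i j : Fin d → Fin k → ℝ)) ⁻¹'
        (⋃ X : Matrix (Fin k) (Fin d) ℝ,
          {W : Fin d → Fin k → ℝ | Real.sqrt (frobSq (A - A * (Matrix.of W) * X)) <
            c + 1 / ((m : ℝ) + 1)}) := by
    ext ω
    simp only [Set.mem_ofPred_eq, Set.mem_iInter, Set.mem_preimage, Set.mem_iUnion]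
    constructor
    · intro h m
      obtain ⟨X, hX⟩ := hmin (Ω ω)
      refine ⟨X, ?_⟩
      have e1 : (Matrix.of fun i j => Ω ω i j) = Ω ω := rfl
      rw [e1, ← hX]
      have : (0 : ℝ) < 1 / ((m : ℝ) + 1) := by positivity
      exact lt_of_le_of_lt h (by linarith)
    · intro h
      apply le_of_forall_pos_lt_add
      intro t ht
      obtain ⟨m, hm⟩ := exists_nat_one_div_lt ht
      obtain ⟨X, hX⟩ := h m
      have e1 : (Matrix.of fun i j => Ω ω i j) = Ω ω := rfl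
      rw [e1] at hX
      have h1 : frobNorm (A - rsvd A (Ω ω)) ≤ Real.sqrt (frobSq (A - A * Ω ω * X)) :=
        Real.sqrt_le_sqrt (rsvd_le A (Ω ω) X)
      linarith
  rw [e]
  refine MeasurableSet.iInter fun m => ?_
  have h2 : Measurable (fun ω => (fun i j => Ω ω i j : Fin d → Fin k → ℝ)) :=
    measurable_pi_lambda _ fun i => measurable_pi_lambda _ fun j => hΩ i j
  refine h2 (IsOpen.measurableSet (isOpen_iUnion fun X => isOpen_lt ?_ continuous_const))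
  apply Real.continuous_sqrt.comp
  unfold frobSq
  simp only [Matrix.sub_apply, Matrix.mul_apply, Matrix.of_apply]
  fun_prop

/-- **Main theorem.** Let `Ω` be an oblivious subspace injection with subspace dimension
`1 ≤ r ≤ d`, injectivity `1 - ε` and failure probability `δ`.  For every `η > 0`, every matrix `A`
and every matrix `B` of rank at most `r`, with probability at least `1 - δ - η` the randomized SVD
satisfies `‖A - Ã‖_F ≤ (1 + 5 (ε + 4 δ) / (η (1 - ε))) ‖A - B‖_F`. -/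
theorem result {Θ : Type*} [MeasurableSpace Θ] (μ : Measure Θ) [IsProbabilityMeasure μ]
    {n d k r : ℕ} (hr : 1 ≤ r) (hrd : r ≤ d) {ε δ η : ℝ} (hε0 : 0 < ε) (hε1 : ε < 1)
    (hδ : 0 ≤ δ) (hη : 0 < η) (Ω : Θ → Matrix (Fin d) (Fin k) ℝ) (hΩ : IsOSI μ Ω r (1 - ε) δ)
    (A B : Matrix (Fin n) (Fin d) ℝ) (hB : B.rank ≤ r) :
    ENNReal.ofReal (1 - δ - η) ≤ μ {ω | frobNorm (A - rsvd A (Ω ω)) ≤
      (1 + 5 * (ε + 4 * δ) / (η * (1 - ε))) * frobNorm (A - B)} := by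
  classical
  obtain ⟨r, rfl⟩ : ∃ r', r = r' + 1 := ⟨r - 1, by omega⟩
  obtain ⟨Q, hQ, hBQ⟩ := exists_frame B hB hrd
  set α : ℝ := 1 - ε with hαdef
  have hα : 0 < α := by rw [hαdef]; linarith
  set R : Matrix (Fin n) (Fin d) ℝ := A - A * Q * Qᵀ with hR
  have hRQ : R * Q = 0 := by
    rw [hR, Matrix.sub_mul, Matrix.mul_assoc (A * Q), hQ, Matrix.mul_one, sub_self]
  have hb : ∀ i, Qᵀ *ᵥ (R i) = 0 := by
    intro i
    rw [mulVec_transpose]
    have := congrFun hRQ i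
    exact this
  set β : Fin n → ℝ := fun i => Real.sqrt (normSq (R i)) with hβ
  have hβ2 : ∀ i, normSq (R i) = β i ^ 2 := fun i => (Real.sq_sqrt (normSq_nonneg _)).symm
  have hβ0 : ∀ i, 0 ≤ β i := fun i => Real.sqrt_nonneg _
  set v : Fin d → ℝ := Q *ᵥ Pi.single 0 1 with hv
  have hv1 : normSq v = 1 := by
    rw [hv, normSq_frame hQ, normSq_eq_dot]; simp
  set F : Fin n → Set Θ := fun i => Good Ω α Q (β i) (R i) with hF
  have hFm : ∀ i, MeasurableSet (F i) := fun i => measurableSet_Good hΩ Q _ _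
  set g : Θ → ℝ := fun ω => ∑ i, 5 * (β i ^ 2 * normSq ((Ω ω)ᵀ *ᵥ v) +
      normSq ((Ω ω)ᵀ *ᵥ (R i)) - 2 * α * β i ^ 2 * (F i).indicator 1 ω) with hg
  have hterm0 : ∀ i ω, 0 ≤ 5 * (β i ^ 2 * normSq ((Ω ω)ᵀ *ᵥ v) +
      normSq ((Ω ω)ᵀ *ᵥ (R i)) - 2 * α * β i ^ 2 * (F i).indicator 1 ω) := by
    intro i ω
    by_cases hω : ω ∈ F i
    · rw [Set.indicator_of_mem hω, Pi.one_apply, mul_one]
      rcases (hβ0 i).eq_or_lt with h0 | h0
      · rw [← h0]
        have := normSq_nonneg ((Ω ω)ᵀ *ᵥ (R i))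
        simp only [ne_eq, OfNat.ofNat_ne_zero, not_false_eq_true, zero_pow, zero_mul, mul_zero,
          zero_add, sub_zero]
        positivity
      · have := good_nonneg hQ h0 (hβ2 i) hω
        linarith
    · rw [Set.indicator_of_notMem hω, mul_zero, sub_zero]
      have h1 := normSq_nonneg ((Ω ω)ᵀ *ᵥ (R i))
      have h2 := normSq_nonneg ((Ω ω)ᵀ *ᵥ v)
      positivity
  have hg0 : ∀ ω, 0 ≤ g ω := fun ω => Finset.sum_nonneg fun i _ => hterm0 i ω
  have hind : ∀ i, Integrable ((F i).indicator (1 : Θ → ℝ)) μ := fun i =>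
    (integrable_const (1 : ℝ)).indicator (hFm i)
  have hterm_int : ∀ i, Integrable (fun ω => 5 * (β i ^ 2 * normSq ((Ω ω)ᵀ *ᵥ v) +
      normSq ((Ω ω)ᵀ *ᵥ (R i)) - 2 * α * β i ^ 2 * (F i).indicator 1 ω)) μ := by
    intro i
    exact ((((integrable_sketch hΩ v).const_mul _).add (integrable_sketch hΩ (R i))).sub
      ((hind i).const_mul _)).const_mul _
  have hgint : Integrable g μ := integrable_finsetSum _ fun i _ => hterm_int i
  set ρ : ℝ := frobSq R with hρ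
  have hρ0 : 0 ≤ ρ := frobSq_nonneg R
  have hρsum : ρ = ∑ i, β i ^ 2 := by
    rw [hρ, frobSq_eq_rows]
    exact Finset.sum_congr rfl fun i _ => hβ2 i
  have hint : ∫ ω, g ω ∂μ ≤ 10 * (ε + 4 * δ) * ρ := by
    rw [hg, integral_finsetSum _ fun i _ => hterm_int i, hρsum, Finset.mul_sum]
    apply Finset.sum_le_sum
    intro i _
    rw [integral_const_mul, integral_sub, integral_add, integral_const_mul, integral_const_mul,
      hΩ.isotropic, hΩ.isotropic, hv1, hβ2 i, integral_indicator_one (hFm i)]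
    rotate_left
    · exact (integrable_sketch hΩ v).const_mul _
    · exact integrable_sketch hΩ (R i)
    · exact ((integrable_sketch hΩ v).const_mul _).add (integrable_sketch hΩ (R i))
    · exact (hind i).const_mul _
    rcases (hβ0 i).eq_or_lt with h0 | h0
    · rw [← h0]; simp
    · have h1 := compl_Good_le hΩ hQ h0 (hb i) (hβ2 i)
      rw [probReal_compl_eq_one_sub (measurableSet_Good hΩ Q _ _)] at h1
      have h2 : 1 - 4 * δ ≤ μ.real (F i) := by
        have : μ.real (F i) = μ.real (Good Ω α Q (β i) (R i)) := rfl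
        linarith
      have h3 : α * (1 - 4 * δ) ≤ α * μ.real (F i) := mul_le_mul_of_nonneg_left h2 hα.le
      have h4 : 1 - α * μ.real (F i) ≤ ε + 4 * δ := by
        have : α * (1 - 4 * δ) = 1 - ε - 4 * δ + 4 * (ε * δ) := by rw [hαdef]; ring
        have : 0 ≤ ε * δ := by positivity
        linarith
      have h5 : β i ^ 2 * (1 - α * μ.real (F i)) ≤ β i ^ 2 * (ε + 4 * δ) :=
        mul_le_mul_of_nonneg_left h4 (by positivity)
      nlinarith
  -- the deterministic bound on the injectivity event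
  have hdet : ∀ ω ∈ Ev Ω α Q.mulVecLin, frobSq (A - rsvd A (Ω ω)) ≤ ρ + g ω / α := by
    intro ω hω
    set W : Matrix (Fin k) (Fin d) ℝ := (Ω ω)ᵀ with hW
    set N : Matrix (Fin k) (Fin (r + 1)) ℝ := W * Q with hN
    have hinj : ∀ z, α * normSq z ≤ normSq (N *ᵥ z) := by
      intro z
      have := hω (Q *ᵥ z) ⟨z, rfl⟩
      rwa [normSq_frame hQ, mulVec_mulVec] at this
    set G : Matrix (Fin (r + 1)) (Fin (r + 1)) ℝ := Nᵀ * N with hG
    have hGu : IsUnit G := by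
      rw [← Matrix.mulVec_injective_iff_isUnit]
      have : Function.Injective G.mulVecLin := by
        rw [← LinearMap.ker_eq_bot, LinearMap.ker_eq_bot']
        intro z hz
        rw [mulVecLin_apply] at hz
        have h1 : normSq (N *ᵥ z) = 0 := by
          rw [normSq_eq_dot, dotProduct_mulVec, ← mulVec_transpose, mulVec_mulVec, ← hG, hz,
            zero_dotProduct]
        have h2 := hinj z
        rw [h1] at h2
        have h3 : normSq z = 0 := by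
          have := normSq_nonneg z
          nlinarith
        exact normSq_eq_zero h3
      exact this
    have hGi : G * G⁻¹ = 1 := by
      rw [Matrix.mul_nonsing_inv _ ((Matrix.isUnit_iff_isUnit_det _).mp hGu)]
    have hGs : Gᵀ = G := by rw [hG]; simp
    have hGis : (G⁻¹)ᵀ = G⁻¹ := by rw [Matrix.transpose_nonsing_inv, hGs]
    set S : Matrix (Fin n) (Fin (r + 1)) ℝ := R * (Ω ω) * N * G⁻¹ with hS
    have hX : A * (Ω ω) * (N * G⁻¹ * Qᵀ) = A * Q * Qᵀ + S * Qᵀ := by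
      have hA : A = A * Q * Qᵀ + R := by rw [hR]; abel
      have hNt : Qᵀ * (Ω ω) = Nᵀ := by rw [hN, hW, transpose_mul, transpose_transpose]
      conv_lhs => rw [hA]
      rw [Matrix.add_mul, Matrix.add_mul]
      congr 1
      · calc A * Q * Qᵀ * Ω ω * (N * G⁻¹ * Qᵀ) = A * Q * (Qᵀ * Ω ω * N * G⁻¹) * Qᵀ := by
              simp only [Matrix.mul_assoc]
          _ = A * Q * Qᵀ := by rw [hNt, ← hG, hGi, Matrix.mul_one]
      · rw [hS]; simp only [Matrix.mul_assoc]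
    refine (rsvd_error_le hQ hX).trans ?_
    rw [← hR, ← hρ]
    have hSrow : ∀ i, α * normSq (S i) ≤ 5 * (β i ^ 2 * normSq ((Ω ω)ᵀ *ᵥ v) +
      normSq ((Ω ω)ᵀ *ᵥ (R i)) - 2 * α * β i ^ 2 * (F i).indicator 1 ω) := by
      intro i
      have hSi : S i = G⁻¹ *ᵥ (Nᵀ *ᵥ (W *ᵥ (R i))) := by
        have h1 : S i = (R i) ᵥ* (Ω ω * N * G⁻¹) := by
          rw [hS]
          simp only [Matrix.mul_assoc]
          rfl
        rw [h1, ← mulVec_transpose, transpose_mul, transpose_mul, hGis, ← hW,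
          mulVec_mulVec, mulVec_mulVec, Matrix.mul_assoc]
      have hs : ∀ z, (N *ᵥ (S i)) ⬝ᵥ (N *ᵥ z) = (W *ᵥ (R i)) ⬝ᵥ (N *ᵥ z) := by
        intro z
        have h1 : G *ᵥ (S i) = Nᵀ *ᵥ (W *ᵥ (R i)) := by
          rw [hSi, mulVec_mulVec, hGi, one_mulVec]
        rw [dotProduct_mulVec, ← mulVec_transpose, mulVec_mulVec, ← hG, h1,
          dotProduct_mulVec, ← mulVec_transpose]
      by_cases hωF : ω ∈ F i
      · rw [Set.indicator_of_mem hωF, Pi.one_apply, mul_one]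
        rcases (hβ0 i).eq_or_lt with h0 | h0
        · have hRi : R i = 0 := by
            apply normSq_eq_zero
            rw [hβ2 i, ← h0]; simp
          have hSi0 : S i = 0 := by rw [hSi, hRi]; simp
          rw [hSi0, hRi, ← h0]
          simp
        · exact good_bound hQ hα h0 (hb i) (hβ2 i) hωF hs
      · rw [Set.indicator_of_notMem hωF, mul_zero, sub_zero]
        have h1 := row_bound hs hinj
        have h2 := normSq_nonneg ((Ω ω)ᵀ *ᵥ v)
        have h3 := normSq_nonneg (W *ᵥ (R i))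
        have h4 : 0 ≤ β i ^ 2 * normSq ((Ω ω)ᵀ *ᵥ v) := by positivity
        have h5 : normSq ((Ω ω)ᵀ *ᵥ (R i)) = normSq (W *ᵥ (R i)) := rfl
        rw [h5]
        linarith
    have hSsum : α * frobSq S ≤ g ω := by
      rw [frobSq_eq_rows, Finset.mul_sum]
      exact Finset.sum_le_sum fun i _ => hSrow i
    have : frobSq S ≤ g ω / α := by
      rw [le_div_iff₀ hα]; linarith
    linarith
  -- conclude
  have hres : ρ ≤ frobSq (A - B) := resid_le hQ hBQ
  set κ : ℝ := 5 * (ε + 4 * δ) / (η * α) with hκ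
  have hκ0 : 0 ≤ κ := by positivity
  have hfin : ∀ ω ∈ Ev Ω α Q.mulVecLin, g ω ≤ 10 * (ε + 4 * δ) * ρ / η →
      frobNorm (A - rsvd A (Ω ω)) ≤ (1 + κ) * frobNorm (A - B) := by
    intro ω hω hgω
    have h1 := hdet ω hω
    have h2 : g ω / α ≤ 2 * κ * ρ := by
      have : 2 * κ * ρ = 10 * (ε + 4 * δ) * ρ / η / α := by
        rw [hκ]; field_simp; ring
      rw [this]
      exact div_le_div_of_nonneg_right hgω hα.le
    have h3 : frobSq (A - rsvd A (Ω ω)) ≤ ((1 + κ) * frobNorm (A - B)) ^ 2 := by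
      rw [mul_pow, frobNorm_sq]
      have h4 : (1 + 2 * κ) * ρ ≤ (1 + κ) ^ 2 * frobSq (A - B) := by
        apply mul_le_mul _ hres hρ0 (by positivity)
        nlinarith
      linarith
    calc frobNorm (A - rsvd A (Ω ω)) = Real.sqrt (frobSq (A - rsvd A (Ω ω))) := rfl
      _ ≤ Real.sqrt (((1 + κ) * frobNorm (A - B)) ^ 2) := Real.sqrt_le_sqrt h3
      _ = (1 + κ) * frobNorm (A - B) := Real.sqrt_sq (by
          have : 0 ≤ frobNorm (A - B) := Real.sqrt_nonneg _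
          positivity)
  have hEv := compl_Ev_le hΩ _ (frame_injective hQ)
  rw [probReal_compl_eq_one_sub (measurableSet_Ev hΩ _)] at hEv
  have hgoal : 1 - δ - η ≤ μ.real {ω | frobNorm (A - rsvd A (Ω ω)) ≤
      (1 + κ) * frobNorm (A - B)} := by
    have hsub : Ev Ω α Q.mulVecLin ⊆ {ω | frobNorm (A - rsvd A (Ω ω)) ≤
        (1 + κ) * frobNorm (A - B)} ∪ {ω | ω ∈ Ev Ω α Q.mulVecLin ∧
          10 * (ε + 4 * δ) * ρ / η < g ω} := by
      intro ω hω
      by_cases h : g ω ≤ 10 * (ε + 4 * δ) * ρ / η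
      · exact Or.inl (hfin ω hω h)
      · exact Or.inr ⟨hω, not_le.mp h⟩
    have h1 : μ.real (Ev Ω α Q.mulVecLin) ≤ _ := measureReal_mono (μ := μ) hsub
    have h2 := measureReal_union_le (μ := μ) {ω | frobNorm (A - rsvd A (Ω ω)) ≤
        (1 + κ) * frobNorm (A - B)} {ω | ω ∈ Ev Ω α Q.mulVecLin ∧
          10 * (ε + 4 * δ) * ρ / η < g ω}
    have h3 : μ.real {ω | ω ∈ Ev Ω α Q.mulVecLin ∧ 10 * (ε + 4 * δ) * ρ / η < g ω} ≤ η := by
      rcases hρ0.eq_or_lt with h0 | h0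
      · -- zero residual: the bad set is null
        have hz : ∫ ω, g ω ∂μ = 0 := by
          apply le_antisymm
          · rw [← h0] at hint; simpa using hint
          · exact integral_nonneg hg0
        have hae : g =ᵐ[μ] 0 := (integral_eq_zero_iff_of_nonneg hg0 hgint).mp hz
        have : μ {ω | ω ∈ Ev Ω α Q.mulVecLin ∧ 10 * (ε + 4 * δ) * ρ / η < g ω} = 0 := by
          have hsub2 : {ω | ω ∈ Ev Ω α Q.mulVecLin ∧ 10 * (ε + 4 * δ) * ρ / η < g ω} ⊆
              {ω | ¬ (g ω = (0 : Θ → ℝ) ω)} := by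
            intro ω hω
            have := hω.2
            rw [← h0] at this
            simp only [mul_zero, zero_div] at this
            exact this.ne'
          exact measure_mono_null hsub2 hae
        rw [measureReal_def, this]
        simpa using hη.le
      · set t : ℝ := 10 * (ε + 4 * δ) * ρ / η with ht
        have ht0 : 0 < t := by positivity
        have hM := mul_meas_ge_le_integral_of_nonneg (μ := μ) (f := g)
          (Filter.Eventually.of_forall hg0) hgint t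
        have hM2 : μ.real {ω | t ≤ g ω} ≤ η := by
          have : t * μ.real {ω | t ≤ g ω} ≤ t * η := by
            have e : t * η = 10 * (ε + 4 * δ) * ρ := by rw [ht]; field_simp
            rw [e]
            exact hM.trans hint
          exact le_of_mul_le_mul_left this ht0
        refine le_trans (measureReal_mono ?_) hM2
        intro ω hω
        exact hω.2.le
    linarith
  rw [measureReal_def] at hgoal
  exact (ENNReal.ofReal_le_iff_le_toReal (measure_ne_top _ _)).mpr hgoal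

end Pool.Agent.Results.MP_082b65_an.RelativeErrorRSVD
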